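import Pool.Agent.Q92.AR.Stm

/-! # Project AR: basic facts on divisors and rays -/

set_option autoImplicit false
set_option linter.unusedSectionVars false

namespace Pool.Agent.Q182.AR

open NumberField IsDedekindDomain Pool.Agent.Q5.BR Pool.Agent.Q92.AR

section
variable {F : Type} [Field F] [NumberField F]

theorem prin_log (x : Fˣ) (v : HeightOneSpectrum (𝓞 F)) :
    prin x v = -WithZero.log (v.valuation F (x : F)) := by
  classical
  have key : ∀ a : 𝓞 F, a ≠ 0 →
      FractionalIdeal.count F v (FractionalIdeal.spanSingleton (nonZeroDivisors (𝓞 F))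
        (algebraMap (𝓞 F) F a)) = -WithZero.log (v.valuation F (algebraMap (𝓞 F) F a)) := by
    intro a ha
    rw [← FractionalIdeal.coeIdeal_span_singleton, FractionalIdeal.count_coe,
      HeightOneSpectrum.valuation_of_algebraMap, HeightOneSpectrum.intValuation_if_neg _ ha,
      WithZero.log_exp, neg_neg]
    intro h0
    exact ha (Ideal.span_singleton_eq_bot.1 h0)
  rw [prin_apply]
  obtain ⟨a, b, hb, hab⟩ := IsFractionRing.div_surjective (A := 𝓞 F) (x : F)
  have hb0 : b ≠ 0 := nonZeroDivisors.ne_zero hb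
  have hb' : algebraMap (𝓞 F) F b ≠ 0 := fun h0 =>
    hb0 (FaithfulSMul.algebraMap_injective (𝓞 F) F (by rw [h0, map_zero]))
  have ha' : algebraMap (𝓞 F) F a ≠ 0 := by
    intro h0
    rw [h0, zero_div] at hab
    exact x.ne_zero hab.symm
  have ha0 : a ≠ 0 := by
    rintro rfl
    exact ha' (map_zero _)
  have h1 : FractionalIdeal.spanSingleton (nonZeroDivisors (𝓞 F)) (x : F) *
      FractionalIdeal.spanSingleton (nonZeroDivisors (𝓞 F)) (algebraMap (𝓞 F) F b) =
      FractionalIdeal.spanSingleton (nonZeroDivisors (𝓞 F)) (algebraMap (𝓞 F) F a) := by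
    rw [FractionalIdeal.spanSingleton_mul_spanSingleton, ← hab, div_mul_cancel₀ _ hb']
  have h2 := congrArg (FractionalIdeal.count F v) h1
  rw [FractionalIdeal.count_mul, key a ha0, key b hb0] at h2
  · have h3 : WithZero.log (v.valuation F (x : F)) =
        WithZero.log (v.valuation F (algebraMap (𝓞 F) F a)) -
          WithZero.log (v.valuation F (algebraMap (𝓞 F) F b)) := by
      rw [← hab, map_div₀, WithZero.log_div]
      · exact (Valuation.ne_zero_iff _).2 ha'
      · exact (Valuation.ne_zero_iff _).2 hb'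
    rw [h3]
    linarith
  · exact FractionalIdeal.spanSingleton_ne_zero_iff.2 x.ne_zero
  · exact FractionalIdeal.spanSingleton_ne_zero_iff.2 hb'

theorem log_eq_zero_iff {y : WithZero (Multiplicative ℤ)} (hy : y ≠ 0) :
    WithZero.log y = 0 ↔ y = 1 := by
  constructor
  · intro h
    have h1 := WithZero.exp_log hy
    rw [h] at h1
    rw [← h1]
    rfl
  · rintro rfl
    exact WithZero.log_one

theorem prin_eq_zero_iff (x : Fˣ) (v : HeightOneSpectrum (𝓞 F)) :
    prin x v = 0 ↔ v.valuation F (x : F) = 1 := by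
  rw [prin_log, neg_eq_zero, log_eq_zero_iff ((Valuation.ne_zero_iff _).2 x.ne_zero)]

theorem cong_one (N : ℕ) : Cong N (1 : F) := by
  intro v _
  rw [sub_self, map_zero]
  exact zero_le

theorem cong_mul {N : ℕ} {x y : F} (hx : Cong N x) (hy : Cong N y) : Cong N (x * y) := by
  intro v hv
  have e : x * y - 1 = (x - 1) * y + (y - 1) := by ring
  rw [e]
  refine (Valuation.map_add _ _ _).trans (max_le ?_ (hy v hv))
  rw [map_mul, val_eq_one hv (hy v hv), mul_one]
  exact hx v hv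

theorem cong_inv {N : ℕ} {x : F} (hx : Cong N x) : Cong N x⁻¹ := by
  intro v hv
  have h1 := val_eq_one hv (hx v hv)
  have h0 : x ≠ 0 := by
    rintro rfl
    rw [map_zero] at h1
    exact zero_ne_one h1
  have e : x⁻¹ - 1 = -((x - 1) * x⁻¹) := by
    field_simp
    ring
  rw [e, Valuation.map_neg, map_mul, map_inv₀, h1, inv_one, mul_one]
  exact hx v hv

theorem pos_one : Pos (1 : F) := fun φ => by rw [map_one]; exact one_pos

theorem pos_mul {x y : F} (hx : Pos x) (hy : Pos y) : Pos (x * y) := fun φ => by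
  rw [map_mul]; exact mul_pos (hx φ) (hy φ)

theorem pos_inv {x : F} (hx : Pos x) : Pos x⁻¹ := fun φ => by
  rw [map_inv₀]; exact inv_pos.2 (hx φ)

/-- the ray as a subgroup -/
def RayG (F : Type) [Field F] [NumberField F] (N : ℕ) : Subgroup Fˣ where
  carrier := Ray F N
  mul_mem' {a b} ha hb := ⟨by rw [Units.val_mul]; exact cong_mul ha.1 hb.1,
    by rw [Units.val_mul]; exact pos_mul ha.2 hb.2⟩
  one_mem' := ⟨by rw [Units.val_one]; exact cong_one N, by rw [Units.val_one]; exact pos_one⟩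
  inv_mem' {a} ha := ⟨by rw [Units.val_inv_eq_inv_val]; exact cong_inv ha.1,
    by rw [Units.val_inv_eq_inv_val]; exact pos_inv ha.2⟩

theorem mem_RayD {N : ℕ} {D : Dv F} : D ∈ RayD F N ↔ ∃ x ∈ Ray F N, prin x = D := by
  constructor
  · intro h
    have h1 : RayD F N ≤ (Subgroup.toAddSubgroup (RayG F N)).map (prinHom (F := F)) := by
      unfold RayD
      rw [AddSubgroup.closure_le]
      rintro _ ⟨x, hx, rfl⟩
      exact ⟨Additive.ofMul x, hx, rfl⟩
    obtain ⟨x, hx, hxD⟩ := h1 h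
    exact ⟨x.toMul, hx, hxD⟩
  · rintro ⟨x, hx, rfl⟩
    exact AddSubgroup.subset_closure ⟨x, hx, rfl⟩

theorem prin_mem_Pr {N : ℕ} {x : Fˣ} (hx : Cong N (x : F)) : prin x ∈ Pr F N := by
  rw [mem_Pr]
  intro v hv
  rw [prin_eq_zero_iff]
  exact val_eq_one hv (hx v hv)

theorem RayD_le (N : ℕ) : RayD F N ≤ Pr F N := by
  intro D hD
  obtain ⟨x, hx, rfl⟩ := mem_RayD.1 hD
  exact prin_mem_Pr hx.1

theorem mem_dvd {M N : ℕ} (h : M ∣ N) {v : HeightOneSpectrum (𝓞 F)} (hv : (M : 𝓞 F) ∈ v.asIdeal) :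
    (N : 𝓞 F) ∈ v.asIdeal := by
  obtain ⟨c, rfl⟩ := h
  rw [Nat.cast_mul]
  exact v.asIdeal.mul_mem_right _ hv

theorem mem_pow {M N k : ℕ} (h : N ∣ M ^ k) {v : HeightOneSpectrum (𝓞 F)}
    (hv : (N : 𝓞 F) ∈ v.asIdeal) : (M : 𝓞 F) ∈ v.asIdeal := by
  have h1 := mem_dvd h hv
  rw [Nat.cast_pow] at h1
  exact v.isPrime.mem_of_pow_mem _ h1

theorem mem_iff {M N : ℕ} (h : M ∣ N) (h2 : ∃ k, N ∣ M ^ k) (v : HeightOneSpectrum (𝓞 F)) :
    (N : 𝓞 F) ∈ v.asIdeal ↔ (M : 𝓞 F) ∈ v.asIdeal := by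
  obtain ⟨k, hk⟩ := h2
  exact ⟨mem_pow hk, mem_dvd h⟩

theorem Pr_eq {M N : ℕ} (h : M ∣ N) (h2 : ∃ k, N ∣ M ^ k) : Pr F N = Pr F M := by
  ext D
  rw [mem_Pr, mem_Pr]
  exact forall_congr' fun v => by rw [mem_iff h h2]

/-- an integral element congruent to `1` -/
theorem cong_of_dvd {N : ℕ} {x : 𝓞 F} (h : (N : 𝓞 F) ∣ x - 1) : Cong N (x : F) := by
  obtain ⟨c, hc⟩ := h
  intro v _
  have e : (x : F) - 1 = (N : F) * (c : F) := by
    have := congrArg (fun z : 𝓞 F => (z : F)) hc
    simpa using this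
  rw [e, map_mul]
  have h1 : v.valuation F (c : F) ≤ 1 := v.valuation_le_one c
  calc v.valuation F (N : F) * v.valuation F (c : F) ≤ v.valuation F (N : F) * 1 :=
        mul_le_mul_right h1 _
    _ = _ := mul_one _

end

section
variable {F E : Type} [Field F] [NumberField F] [Field E] [NumberField E] [Algebra F E]

theorem under_mem {w : HeightOneSpectrum (𝓞 E)} {N : ℕ} :
    (N : 𝓞 F) ∈ (w.under (𝓞 F)).asIdeal ↔ (N : 𝓞 E) ∈ w.asIdeal := by
  change (N : 𝓞 F) ∈ w.asIdeal.comap (algebraMap (𝓞 F) (𝓞 E)) ↔ _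
  rw [Ideal.mem_comap, map_natCast]

theorem val_up (w : HeightOneSpectrum (𝓞 E)) (c : F) :
    (w.under (𝓞 F)).valuation F c = 1 ↔ w.valuation E (algebraMap F E c) = 1 := by
  have : w.asIdeal.LiesOver (w.under (𝓞 F)).asIdeal := ⟨rfl⟩
  have h := HeightOneSpectrum.valuation_liesOver (A := 𝓞 F) (K := F) E (w.under (𝓞 F)) w c
  rw [← h]
  have h0 := Ideal.IsDedekindDomain.ramificationIdx'_ne_zero_of_liesOver w.asIdeal
    (w.under (𝓞 F)).ne_bot
  constructor
  · intro h1
    rw [h1, one_pow]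
  · intro h1
    by_cases hc : c = 0
    · rw [hc, map_zero, zero_pow h0] at h1
      exact absurd h1 zero_ne_one
    · have hc' : (w.under (𝓞 F)).valuation F c ≠ 0 := (Valuation.ne_zero_iff _).2 hc
      rw [← log_eq_zero_iff hc']
      have h2 := congrArg WithZero.log h1
      rw [WithZero.log_pow, WithZero.log_one, nsmul_eq_mul, mul_eq_zero] at h2
      rcases h2 with h2 | h2
      · exact absurd (by exact_mod_cast h2) h0
      · exact h2

end

end Pool.Agent.Q182.AR
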