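import Pool.Agent.Q182.AR.Base

/-! # Project AR, job HAS: the Herbrand quotient of the `S`-units in `A` -/

set_option autoImplicit false
set_option linter.unusedSectionVars false

namespace Pool.Agent.Q182.AR

open NumberField IsDedekindDomain Pool.Agent.Q5.BR Pool.Agent.Q92.AR

section gen
variable {A : Type} [AddCommGroup A]

theorem res_pow {σ : AddMonoid.End A} {H : AddSubgroup A} {τ : AddMonoid.End H} (h : IsRes σ τ)
    (k : ℕ) : IsRes (σ ^ k) (τ ^ k) := by
  induction k with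
  | zero => intro u; rfl
  | succ k ih =>
    intro u
    rw [pow_succ, pow_succ]
    have h1 : (τ ^ k * τ) u = (τ ^ k) (τ u) := rfl
    have h2 : (σ ^ k * σ) (u : A) = (σ ^ k) (σ u) := rfl
    rw [h1, h2, ih, h]

theorem res_pow_one {σ : AddMonoid.End A} {H : AddSubgroup A} {τ : AddMonoid.End H}
    (h : IsRes σ τ) {n : ℕ} (hn : σ ^ n = 1) : τ ^ n = 1 := by
  refine DFunLike.ext _ _ fun u => Subtype.ext ?_
  rw [res_pow h n u, hn]
  rfl

/-- restriction of an endomorphism to a stable subgroup -/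
def resE (σ : AddMonoid.End A) (H : AddSubgroup A) (h : ∀ x ∈ H, σ x ∈ H) : AddMonoid.End H :=
  (σ.comp H.subtype).codRestrict H fun x => h x.1 x.2

theorem resE_isRes (σ : AddMonoid.End A) (H : AddSubgroup A) (h : ∀ x ∈ H, σ x ∈ H) :
    IsRes σ (resE σ H h) := fun _ => rfl

/-- the induced endomorphism of the quotient by a stable subgroup -/
def quoE (σ : AddMonoid.End A) (H : AddSubgroup A) (h : ∀ x ∈ H, σ x ∈ H) :
    AddMonoid.End (A ⧸ H) :=
  QuotientAddGroup.map H H σ h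

theorem quoE_mk (σ : AddMonoid.End A) (H : AddSubgroup A) (h : ∀ x ∈ H, σ x ∈ H) (x : A) :
    quoE σ H h (QuotientAddGroup.mk x) = QuotientAddGroup.mk (σ x) := rfl

theorem quoE_pow (σ : AddMonoid.End A) (H : AddSubgroup A) (h : ∀ x ∈ H, σ x ∈ H) (k : ℕ) (x : A) :
    (quoE σ H h ^ k) (QuotientAddGroup.mk x) = QuotientAddGroup.mk ((σ ^ k) x) := by
  induction k generalizing x with
  | zero => rfl
  | succ k ih =>
    rw [pow_succ, pow_succ]
    have h1 : (quoE σ H h ^ k * quoE σ H h) (QuotientAddGroup.mk x) =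
      (quoE σ H h ^ k) (quoE σ H h (QuotientAddGroup.mk x)) := rfl
    have h2 : (σ ^ k * σ) x = (σ ^ k) (σ x) := rfl
    rw [h1, h2, quoE_mk, ih]

theorem quoE_pow_eq_one (σ : AddMonoid.End A) (H : AddSubgroup A) (h : ∀ x ∈ H, σ x ∈ H) {n : ℕ}
    (hn : σ ^ n = 1) : quoE σ H h ^ n = 1 := by
  refine DFunLike.ext _ _ fun u => ?_
  obtain ⟨x, rfl⟩ := QuotientAddGroup.mk_surjective u
  rw [quoE_pow, hn]
  rfl

end gen

section gal
variable {F E : Type} [Field F] [NumberField F] [Field E] [NumberField E] [Algebra F E]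

theorem sE_mul (σ τ : E ≃ₐ[F] E) : sE (σ * τ) = sE σ * sE τ := rfl

theorem sE_one : sE (1 : E ≃ₐ[F] E) = 1 := by
  refine AddMonoidHom.ext fun x => ?_
  apply Additive.toMul.injective
  apply Units.ext
  rfl

theorem sE_pow (σ : E ≃ₐ[F] E) (k : ℕ) : sE (σ ^ k) = sE σ ^ k := by
  induction k with
  | zero => rw [pow_zero, pow_zero, sE_one]
  | succ k ih => rw [pow_succ, pow_succ, sE_mul, ih]

theorem sE_pow_finrank [IsGalois F E] (σ : E ≃ₐ[F] E) : sE σ ^ (Module.finrank F E) = 1 := by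
  rw [← sE_pow, ← IsGalois.card_aut_eq_finrank, pow_card_eq_one', sE_one]

theorem sD_one : sD (1 : E ≃ₐ[F] E) = 1 := by
  classical
  refine AddMonoidHom.ext fun x => ?_
  have h : (Pool.Agent.TeamU.act (1 : E ≃ₐ[F] E)) = id := by
    funext P
    exact Pool.Agent.TeamU.act_one P
  unfold sD
  rw [h]
  exact Finsupp.mapDomain_id

theorem sD_mul (σ τ : E ≃ₐ[F] E) : sD (σ * τ) = sD σ * sD τ := by
  classical
  refine AddMonoidHom.ext fun x => ?_
  have h : (Pool.Agent.TeamU.act (σ * τ)) = Pool.Agent.TeamU.act σ ∘ Pool.Agent.TeamU.act τ := by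
    funext P
    apply HeightOneSpectrum.ext
    ext x
    rfl
  unfold sD
  rw [h]
  exact Finsupp.mapDomain_comp

theorem sD_pow (σ : E ≃ₐ[F] E) (k : ℕ) : sD (σ ^ k) = sD σ ^ k := by
  induction k with
  | zero => rw [pow_zero, pow_zero, sD_one]
  | succ k ih => rw [pow_succ, pow_succ, sD_mul, ih]

theorem sD_pow_finrank [IsGalois F E] (σ : E ≃ₐ[F] E) : sD σ ^ (Module.finrank F E) = 1 := by
  rw [← sD_pow, ← IsGalois.card_aut_eq_finrank, pow_card_eq_one', sD_one]

theorem finite_above (T : Set (HeightOneSpectrum (𝓞 F))) (hT : T.Finite) :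
    {w : HeightOneSpectrum (𝓞 E) | w.under (𝓞 F) ∈ T}.Finite := by
  classical
  refine (hT.biUnion fun v _ => (above E v).finite_toSet).subset ?_
  intro w hw
  exact Set.mem_biUnion (x := w.under (𝓞 F)) hw (Finset.mem_coe.2 (mem_above.2 rfl))

end gal

section units
variable {E : Type} [Field E] [NumberField E]

/-- a power of a unit is congruent to `1` -/
theorem unit_pow (N : ℕ) (hN : N ≠ 0) : ∃ m : ℕ, m ≠ 0 ∧ ∀ x : Eˣ, prin x = 0 →
    Cong N ((x ^ m : Eˣ) : E) := by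
  classical
  have hI : Ideal.span {(N : 𝓞 E)} ≠ ⊥ := by
    rw [Ne, Ideal.span_singleton_eq_bot]
    exact_mod_cast hN
  have hfin : Finite (𝓞 E ⧸ Ideal.span {(N : 𝓞 E)}) := Ideal.finiteQuotientOfFreeOfNeBot _ hI
  refine ⟨Nat.card (𝓞 E ⧸ Ideal.span {(N : 𝓞 E)})ˣ, Nat.card_pos.ne', fun x hx => ?_⟩
  have hv : ∀ v : HeightOneSpectrum (𝓞 E), v.valuation E (x : E) = 1 := fun v => by
    rw [← prin_eq_zero_iff, hx]; rfl
  obtain ⟨a, ha⟩ := HeightOneSpectrum.mem_integers_of_valuation_le_one E (x : E)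
    fun v => (hv v).le
  obtain ⟨b, hb⟩ := HeightOneSpectrum.mem_integers_of_valuation_le_one E ((x⁻¹ : Eˣ) : E)
    fun v => by rw [Units.val_inv_eq_inv_val, map_inv₀, hv v, inv_one]
  have hab : a * b = 1 := by
    apply FaithfulSMul.algebraMap_injective (𝓞 E) E
    rw [map_mul, ha, hb, map_one, Units.mul_inv]
  have h1 : (Ideal.Quotient.mk (Ideal.span {(N : 𝓞 E)}) a) ^
      Nat.card (𝓞 E ⧸ Ideal.span {(N : 𝓞 E)})ˣ = 1 := by
    let u : (𝓞 E ⧸ Ideal.span {(N : 𝓞 E)})ˣ := ⟨Ideal.Quotient.mk _ a, Ideal.Quotient.mk _ b,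
      by rw [← map_mul, hab, map_one], by rw [mul_comm, ← map_mul, hab, map_one]⟩
    have h2 := congrArg Units.val (pow_card_eq_one' (x := u))
    rw [Units.val_pow_eq_pow_val] at h2
    exact h2
  have h2 : (N : 𝓞 E) ∣ a ^ Nat.card (𝓞 E ⧸ Ideal.span {(N : 𝓞 E)})ˣ - 1 := by
    rw [← Ideal.mem_span_singleton, ← Ideal.Quotient.eq_zero_iff_mem, map_sub, map_pow, h1,
      map_one, sub_self]
  have h3 := cong_of_dvd h2
  have e : ((a ^ Nat.card (𝓞 E ⧸ Ideal.span {(N : 𝓞 E)})ˣ : 𝓞 E) : E) =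
      ((x ^ Nat.card (𝓞 E ⧸ Ideal.span {(N : 𝓞 E)})ˣ : Eˣ) : E) := by
    rw [Units.val_pow_eq_pow_val, ← ha]
    exact map_pow _ _ _
  rw [← e]
  exact h3

theorem prin_pow (x : Eˣ) (m : ℕ) : prin (x ^ m) = m • prin x :=
  (prinHom (F := E)).map_nsmul m (Additive.ofMul x)

end units

/-- **The Herbrand quotient of the `S`-units in `A`.** -/
theorem has (hHex : S_Hex) (hHFin : S_HFin) (hSD : S_SD) (hUH : S_UH) (hFin : S_Fin) : S_HAS := by
  classical
  intro F E _ _ _ _ _ _ σ hσ N N2 A T hN hN2 hdvd hpow hA1 hA2 hT hTN τ ι hτ hι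
  obtain ⟨hSD1, -, -, -, -, -, hSD7⟩ := hSD F E σ hσ
  set n := Module.finrank F E with hn
  have hn0 : 0 < n := Module.finrank_pos
  have hτn : τ ^ n = 1 := res_pow_one hτ (sE_pow_finrank σ)
  have hιn : ι ^ n = 1 := res_pow_one hι (sD_pow_finrank σ)
  obtain ⟨hι0, hι1⟩ := hSD7 T hT ι hι
  -- the divisor map
  let p : AS (F := F) A T →+ SupE F E T :=
    ((prinHom (F := E)).comp (AS (F := F) A T).subtype).codRestrict (SupE F E T) fun x => x.2.2
  have hp : ∀ x, ((p x : SupE F E T) : Dv E) = prin (x : Additive Eˣ).toMul := fun _ => rfl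
  have hpτ : ∀ x, p (τ x) = ι (p x) := by
    intro x
    apply Subtype.ext
    rw [hp, hτ, hSD1, hι, hp]
  have hrange : ∀ x ∈ p.range, ι x ∈ p.range := by
    rintro _ ⟨x, rfl⟩
    exact ⟨τ x, hpτ x⟩
  -- the units
  let U : AddSubgroup (Additive Eˣ) := AS (F := F) A T ⊓ (prinHom (F := E)).ker
  have hU1 : ∀ x ∈ U, x ∈ AS (F := F) A T := fun x hx => hx.1
  have hU2 : ∀ u ∈ U, prin u.toMul = 0 := fun x hx => hx.2
  have hASσ : ∀ x ∈ AS (F := F) A T, sE σ x ∈ AS (F := F) A T := by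
    intro x hx
    rw [← hτ ⟨x, hx⟩]
    exact (τ ⟨x, hx⟩).2
  have hUσ : ∀ x ∈ U, sE σ x ∈ U := by
    intro x hx
    refine ⟨hASσ x hx.1, ?_⟩
    have h1 := hSD1 x
    rw [hU2 x hx, map_zero] at h1
    exact h1
  let τU := resE (sE σ) U hUσ
  have hτU : IsRes (sE σ) τU := resE_isRes _ _ _
  obtain ⟨m, hm0, hm⟩ := unit_pow (E := E) N2 hN2
  obtain ⟨u0, u1, hUHe⟩ := hUH F E σ hσ U τU hτU hU2 ⟨m, hm0, fun x hx => by
    have h1 : prin (x ^ m) = 0 := by rw [prin_pow, hx, smul_zero]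
    refine ⟨⟨hA2 _ (hm x hx), ?_⟩, h1⟩
    change prin (x ^ m) ∈ SupE F E T
    rw [h1]
    exact (SupE F E T).zero_mem⟩
  -- finite index
  set X : Set (HeightOneSpectrum (𝓞 E)) := {w | w.under (𝓞 F) ∈ T} with hX
  have hXfin : X.Finite := finite_above T hT
  set r := (RayD E N2).relIndex (Pr E N2) with hr
  have hr0 : r ≠ 0 := hFin E N2 hN2
  have hTN2 : ∀ D ∈ SupE F E T, D ∈ Pr E N2 := by
    intro D hD w hw
    apply hD
    intro hwT
    apply hTN _ hwT
    rw [under_mem]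
    exact (mem_iff hdvd hpow w).1 hw
  have hrD : ∀ D : SupE F E T, r • D ∈ p.range := by
    intro D
    have h1 : r • (⟨D.1, hTN2 D.1 D.2⟩ : Pr E N2) ∈ (RayD E N2).addSubgroupOf (Pr E N2) :=
      AddSubgroup.nsmul_index_mem _ _
    rw [AddSubgroup.mem_addSubgroupOf] at h1
    obtain ⟨x, hx, hxD⟩ := mem_RayD.1 h1
    have hxD' : prin x = r • (D : Dv E) := hxD
    refine ⟨⟨Additive.ofMul x, hA2 x hx.1, ?_⟩, ?_⟩
    · change prin x ∈ SupE F E T
      rw [hxD']
      exact (SupE F E T).nsmul_mem D.2 r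
    · apply Subtype.ext
      exact hxD'
  have hfinQ : Finite (SupE F E T ⧸ p.range) := by
    have : Finite X := hXfin
    have : NeZero r := ⟨hr0⟩
    let f : SupE F E T → (X → ZMod r) := fun D w => ((D : Dv E) w.1 : ZMod r)
    have hf : ∀ D D' : SupE F E T, f D = f D' →
        (QuotientAddGroup.mk D : SupE F E T ⧸ p.range) = QuotientAddGroup.mk D' := by
      intro D D' h
      rw [QuotientAddGroup.eq]
      have hdv : ∀ w : HeightOneSpectrum (𝓞 E), (r : ℤ) ∣ ((D' : Dv E) - (D : Dv E)) w := by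
        intro w
        by_cases hw : w ∈ X
        · have h1 := congrFun h ⟨w, hw⟩
          rw [Finsupp.sub_apply]
          exact (ZMod.intCast_eq_intCast_iff_dvd_sub _ _ _).1 h1
        · have h1 : (D : Dv E) w = 0 := D.2 w hw
          have h2 : (D' : Dv E) w = 0 := D'.2 w hw
          rw [Finsupp.sub_apply, h1, h2, sub_zero]
          exact dvd_zero _
      let D'' : Dv E := ((D' : Dv E) - (D : Dv E)).mapRange (fun z => z / (r : ℤ)) (by simp)
      have hD''a : ∀ w, D'' w = ((D' : Dv E) - (D : Dv E)) w / (r : ℤ) := fun w =>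
        Finsupp.mapRange_apply ..
      have hD'' : D'' ∈ SupE F E T := by
        intro w hw
        rw [hD''a, Finsupp.sub_apply, D.2 w hw, D'.2 w hw, sub_zero, Int.zero_ediv]
      have he : -D + D' = r • (⟨D'', hD''⟩ : SupE F E T) := by
        apply Subtype.ext
        have h3 : ((-D + D' : SupE F E T) : Dv E) = (D' : Dv E) - (D : Dv E) := by
          rw [AddSubgroup.coe_add, AddSubgroup.coe_neg]
          abel
        rw [h3]
        change _ = r • D''
        ext w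
        rw [Finsupp.smul_apply, hD''a, nsmul_eq_mul]
        exact (Int.mul_ediv_cancel' (hdv w)).symm
      rw [he]
      exact hrD _
    let g : (X → ZMod r) → (SupE F E T ⧸ p.range) := fun y =>
      if h : ∃ D, f D = y then QuotientAddGroup.mk h.choose else 0
    refine Finite.of_surjective g fun z => ?_
    obtain ⟨D, rfl⟩ := QuotientAddGroup.mk_surjective z
    refine ⟨f D, ?_⟩
    have h : ∃ D', f D' = f D := ⟨D, rfl⟩
    change (if h : ∃ D', f D' = f D then QuotientAddGroup.mk h.choose else 0) = _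
    rw [dif_pos h]
    exact hf _ _ h.choose_spec
  -- the two exact sequences
  let γ := resE ι p.range hrange
  have hγ : IsRes ι γ := resE_isRes _ _ _
  have hγn : γ ^ n = 1 := res_pow_one hγ hιn
  let δ := quoE ι p.range hrange
  have hδn : δ ^ n = 1 := quoE_pow_eq_one _ _ _ hιn
  obtain ⟨hδe, hδ0⟩ := hHFin (SupE F E T ⧸ p.range) δ n hn0 hδn
  have hδ1 : q1 δ n ≠ 0 := by rw [← hδe]; exact hδ0
  obtain ⟨-, k2, -, k4⟩ := hHex p.range (SupE F E T) (SupE F E T ⧸ p.range) γ ι δ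
    p.range.subtype (QuotientAddGroup.mk' p.range) n hn0 hγn hιn hδn
    (AddSubgroup.subtype_injective _) (QuotientAddGroup.mk'_surjective _)
    (by rw [AddSubgroup.range_subtype, QuotientAddGroup.ker_mk']) (fun _ => rfl) (fun _ => rfl)
  have hι1' : q1 ι n ≠ 0 := by rw [hι1]; exact one_ne_zero
  obtain ⟨g0, g1⟩ := k2 ⟨hι0, hι1', hδ0, hδ1⟩
  have e1 := k4 ⟨g0, g1, hι0, hι1', hδ0, hδ1⟩
  let i : U →+ AS (F := F) A T := AddSubgroup.inclusion (fun x hx => hU1 x hx)
  obtain ⟨l1, -, -, l4⟩ := hHex U (AS (F := F) A T) p.range τU τ γ i p.rangeRestrict n hn0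
    (res_pow_one hτU (sE_pow_finrank σ)) hτn hγn
    (AddSubgroup.inclusion_injective _) p.rangeRestrict_surjective
    (by
      ext x
      rw [AddMonoidHom.ker_rangeRestrict, AddMonoidHom.mem_ker, AddMonoidHom.mem_range]
      constructor
      · rintro ⟨u, rfl⟩
        apply Subtype.ext
        exact hU2 u.1 u.2
      · intro h
        exact ⟨⟨x.1, x.2, congrArg Subtype.val h⟩, rfl⟩)
    (by
      intro a
      apply Subtype.ext
      exact (hτ (i a)).symm)
    (by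
      intro b
      apply Subtype.ext
      exact hpτ b)
  obtain ⟨t0, t1⟩ := l1 ⟨u0, u1, g0, g1⟩
  have e2 := l4 ⟨u0, u1, t0, t1, g0, g1⟩
  refine ⟨t0, t1, ?_⟩
  -- arithmetic
  rw [hδe] at e1
  have e1' : q0 ι n * q1 γ n = q1 ι n * q0 γ n :=
    Nat.eq_of_mul_eq_mul_right (Nat.pos_of_ne_zero hδ1) e1
  have hpos : 0 < q1 τU n * q1 γ n := Nat.mul_pos (Nat.pos_of_ne_zero u1) (Nat.pos_of_ne_zero g1)
  refine Nat.eq_of_mul_eq_mul_right hpos ?_
  calc q0 τ n * n * q1 ι n * (q1 τU n * q1 γ n)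
      = (q0 τ n * q1 τU n * q1 γ n) * (n * q1 ι n) := by ring
    _ = (q1 τ n * q0 τU n * q0 γ n) * (n * q1 ι n) := by rw [e2]
    _ = q1 τ n * (q0 τU n * n) * (q1 ι n * q0 γ n) := by ring
    _ = q1 τ n * (2 ^ Nat.card (RealRam F E) * q1 τU n) * (q0 ι n * q1 γ n) := by
        rw [hUHe, e1']
    _ = _ := by ring

end Pool.Agent.Q182.AR
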